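import Pool.Agent.TH83.SQ.DilMain
import Pool.Agent.TH959.SQ1824
import Pool.Agent.TH828.SQ1822

/-!
Means of `log |d X + B|` over the products `d = ∏_{i ∈ S} x_i ∏_{i ∈ W \ S} y_i`, `S ⊆ W`.
-/

set_option autoImplicit false

namespace Pool.Agent.T2h42.GD

open Finset Pool.Agent.TH83.SQ
open scoped Pointwise Classical

variable {ι : Type*}

/-- the multiplier -/
noncomputable def dm (x y : ι → ℕ) (W S : Finset ι) : ℤ :=
  (∏ i ∈ S, (x i : ℤ)) * ∏ i ∈ W \ S, (y i : ℤ)

/-- the mean over `S ⊆ W` of `log |d_S X + B|` -/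
noncomputable def mu (x y : ι → ℕ) (W : Finset ι) (X B : Finset ℤ) : ℝ :=
  (∑ S ∈ W.powerset, Real.log ((dil (dm x y W S) X + B).card : ℝ)) / 2 ^ W.card

theorem mu_nonneg (x y : ι → ℕ) (W : Finset ι) (X B : Finset ℤ) : 0 ≤ mu x y W X B := by
  unfold mu
  apply div_nonneg _ (by positivity)
  exact Finset.sum_nonneg fun s _ => Real.log_natCast_nonneg _

theorem dil_mul (a b : ℤ) (X : Finset ℤ) : dil (a * b) X = dil b (dil a X) :=
  Pool.Agent.TH959.SQ.dil_mul a b X

theorem dm_insert_left (x y : ι → ℕ) {W S : Finset ι} {j : ι} (hj : j ∉ W) (hS : S ⊆ W) :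
    dm x y (insert j W) S = (y j : ℤ) * dm x y W S := by
  unfold dm
  have h1 : insert j W \ S = insert j (W \ S) :=
    Finset.insert_sdiff_of_notMem _ (fun h => hj (hS h))
  rw [h1, Finset.prod_insert (fun h => hj (Finset.mem_sdiff.1 h).1)]
  ring

theorem dm_insert_right (x y : ι → ℕ) {W S : Finset ι} {j : ι} (hj : j ∉ W) (hS : S ⊆ W) :
    dm x y (insert j W) (insert j S) = (x j : ℤ) * dm x y W S := by
  unfold dm
  have h1 : insert j W \ insert j S = W \ S := by
    ext i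
    simp only [Finset.mem_sdiff, Finset.mem_insert, not_or]
    constructor
    · rintro ⟨h | h, h2, h3⟩
      · exact absurd h h2
      · exact ⟨h, h3⟩
    · rintro ⟨h1, h2⟩
      exact ⟨Or.inr h1, fun h => hj (h ▸ h1), h2⟩
  rw [h1, Finset.prod_insert (fun h => hj (hS h))]
  ring

theorem mu_insert (x y : ι → ℕ) {W : Finset ι} {j : ι} (hj : j ∉ W) (X B : Finset ℤ) :
    mu x y (insert j W) X B = (mu x y W (dil (y j) X) B + mu x y W (dil (x j) X) B) / 2 := by
  unfold mu
  rw [Finset.sum_powerset_insert hj, Finset.card_insert_of_notMem hj]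
  have h1 : ∀ s ∈ W.powerset, Real.log ((dil (dm x y (insert j W) s) X + B).card : ℝ) =
      Real.log ((dil (dm x y W s) (dil (y j) X) + B).card : ℝ) := by
    intro s hs
    rw [dm_insert_left x y hj (Finset.mem_powerset.1 hs), dil_mul]
  have h : ∀ s ∈ W.powerset, Real.log ((dil (dm x y (insert j W) (insert j s)) X + B).card : ℝ) =
      Real.log ((dil (dm x y W s) (dil (x j) X) + B).card : ℝ) := by
    intro s hs
    rw [dm_insert_right x y hj (Finset.mem_powerset.1 hs), dil_mul]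
  rw [Finset.sum_congr rfl h, Finset.sum_congr rfl h1, pow_succ]
  have h2 : (2 : ℝ) ^ W.card ≠ 0 := by positivity
  field_simp

/-- averaging -/
theorem mu_avg {κ : Type*} (x y : ι → ℕ) (W : Finset ι) (F : Finset κ) (X' B' : κ → Finset ℤ)
    (X B : Finset ℤ)
    (h : ∀ s ⊆ W, Real.log F.card +
      (∑ i ∈ F, Real.log ((dil (dm x y W s) (X' i) + B' i).card : ℝ)) / F.card ≤
        Real.log ((dil (dm x y W s) X + B).card : ℝ)) :
    Real.log F.card + (∑ i ∈ F, mu x y W (X' i) (B' i)) / F.card ≤ mu x y W X B := by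
  unfold mu
  have h2 : (0 : ℝ) < 2 ^ W.card := by positivity
  rw [le_div_iff₀ h2]
  have h3 := Finset.sum_le_sum fun s hs => h s (Finset.mem_powerset.1 hs)
  refine le_trans (le_of_eq ?_) h3
  rw [Finset.sum_add_distrib, Finset.sum_const, Finset.card_powerset, ← Finset.sum_div,
    Finset.sum_comm, nsmul_eq_mul, ← Finset.sum_div]
  push_cast
  rw [add_mul, mul_comm (Real.log _) _]
  congr 1
  rw [div_mul_eq_mul_div, div_mul_cancel₀ _ h2.ne']

open Pool.Agent.TH959.SQ (log_split mem_dil dil_mono cls_subset)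

/-- the branch with a multiplier divisible by `p` -/
theorem caseI (x y : ι → ℕ) (W : Finset ι) {p : ℕ} {a : ℕ} (ha : p ∣ a) (X B : Finset ℤ) (I : ℕ)
    (x₀ : ℤ) (hx₀ : x₀ ∈ X) (U : Finset ℤ) (hU : U ⊆ B) (hUn : U.Nonempty)
    (hUi : ∀ t ∈ U, ∀ t' ∈ U, ((p : ℤ) ^ (I + 1)) ∣ t - t' → t = t') :
    Real.log U.card + (∑ t ∈ U, mu x y W (dil a (cls ((p : ℤ) ^ I) X x₀))
      (cls ((p : ℤ) ^ (I + 1)) B t)) / U.card ≤ mu x y W (dil a X) B := by
  refine mu_avg x y W U (fun _ => dil a (cls ((p : ℤ) ^ I) X x₀))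
    (fun t => cls ((p : ℤ) ^ (I + 1)) B t) (dil a X) B ?_
  intro s _
  refine log_split U hUn _ _ ?_ ?_ ?_
  · intro t _
    exact Finset.add_subset_add (dil_mono (dil_mono (cls_subset _ _ _))) (cls_subset _ _ _)
  · intro t ht
    exact (dil_nonempty (dil_nonempty ⟨x₀, self_mem_cls _ hx₀⟩)).add ⟨t, self_mem_cls _ (hU ht)⟩
  · intro t ht t' ht' htt
    rw [Finset.disjoint_left]
    intro z hz hz'
    apply htt
    have key : ∀ t, z ∈ dil (dm x y W s) (dil a (cls ((p : ℤ) ^ I) X x₀)) +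
        cls ((p : ℤ) ^ (I + 1)) B t →
        ((p : ℤ) ^ (I + 1)) ∣ z - (dm x y W s * (a * x₀) + t) := by
      intro t hz
      obtain ⟨a', ha', b, hb, rfl⟩ := Finset.mem_add.1 hz
      obtain ⟨a'', ha'', rfl⟩ := mem_dil.1 ha'
      obtain ⟨u, hu, rfl⟩ := mem_dil.1 ha''
      have h1 := (Pool.Agent.TH959.SQ.mem_cls.1 hu).2
      have h2 := (Pool.Agent.TH959.SQ.mem_cls.1 hb).2
      have h3 : ((p : ℤ) ^ (I + 1)) ∣ dm x y W s * (a * (u - x₀)) := by
        refine Dvd.dvd.mul_left ?_ _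
        rw [pow_succ, mul_comm]
        exact mul_dvd_mul (by exact_mod_cast ha) h1
      have h4 : dm x y W s * (a * u) + b - (dm x y W s * (a * x₀) + t) =
          dm x y W s * (a * (u - x₀)) + (b - t) := by ring
      rw [h4]
      exact dvd_add h3 h2
    have h5 := key t hz
    have h6 := key t' hz'
    have h7 := dvd_sub h6 h5
    refine hUi t ht t' ht' ?_
    have h8 : z - (dm x y W s * (a * x₀) + t') - (z - (dm x y W s * (a * x₀) + t)) = t - t' := by
      ring
    rwa [h8] at h7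

/-- `p` divides no `x i` and no `y i`, `i ∈ W` -/
def Free (x y : ι → ℕ) (W : Finset ι) (p : ℕ) : Prop := ∀ i ∈ W, ¬ p ∣ x i ∧ ¬ p ∣ y i

theorem dm_cop {x y : ι → ℕ} {W : Finset ι} {p : ℕ} (hp : p.Prime) (hf : Free x y W p)
    {s : Finset ι} (hs : s ⊆ W) : IsCoprime (p : ℤ) (dm x y W s) := by
  have key : ∀ q : ℕ, ¬ p ∣ q → IsCoprime (p : ℤ) (q : ℤ) := by
    intro q hq
    rw [Nat.isCoprime_iff_coprime]
    exact (Nat.Prime.coprime_iff_not_dvd hp).2 hq
  unfold dm
  refine IsCoprime.mul_right ?_ ?_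
  · exact IsCoprime.prod_right fun q hq => key _ (hf q (hs hq)).1
  · exact IsCoprime.prod_right fun q hq => key _ (hf q (Finset.mem_sdiff.1 hq).1).2

theorem caseIIa (x y : ι → ℕ) (W : Finset ι) {p : ℕ} (hp : p.Prime) (hf : Free x y W p)
    (X B : Finset ℤ) (I : ℕ) (T : Finset ℤ) (hT : T ⊆ X) (hTn : T.Nonempty)
    (hTi : ∀ t ∈ T, ∀ t' ∈ T, ((p : ℤ) ^ I) ∣ t - t' → t = t') (b₀ : ℤ) (hb₀ : b₀ ∈ B) :
    Real.log T.card + (∑ t ∈ T, mu x y W (cls ((p : ℤ) ^ I) X t) (cls ((p : ℤ) ^ I) B b₀)) /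
      T.card ≤ mu x y W X B := by
  refine mu_avg x y W T (fun t => cls ((p : ℤ) ^ I) X t)
    (fun _ => cls ((p : ℤ) ^ I) B b₀) X B ?_
  intro s hs
  have hcop : IsCoprime ((p : ℤ) ^ I) (dm x y W s) := (dm_cop hp hf hs).pow_left
  refine log_split T hTn _ _ ?_ ?_ ?_
  · intro t _
    exact Finset.add_subset_add (dil_mono (cls_subset _ _ _)) (cls_subset _ _ _)
  · intro t ht
    exact (dil_nonempty ⟨t, self_mem_cls _ (hT ht)⟩).add ⟨b₀, self_mem_cls _ hb₀⟩
  · intro t ht t' ht' htt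
    rw [Finset.disjoint_left]
    intro z hz hz'
    apply htt
    have key : ∀ t, z ∈ dil (dm x y W s) (cls ((p : ℤ) ^ I) X t) + cls ((p : ℤ) ^ I) B b₀ →
        ((p : ℤ) ^ I) ∣ z - (dm x y W s * t + b₀) := by
      intro t hz
      obtain ⟨a, ha, b, hb, rfl⟩ := Finset.mem_add.1 hz
      obtain ⟨u, hu, rfl⟩ := mem_dil.1 ha
      have h1 := (Pool.Agent.TH959.SQ.mem_cls.1 hu).2
      have h2 := (Pool.Agent.TH959.SQ.mem_cls.1 hb).2
      have h3 : ((p : ℤ) ^ I) ∣ dm x y W s * (u - t) := h1.mul_left _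
      have h4 : dm x y W s * u + b - (dm x y W s * t + b₀) =
          dm x y W s * (u - t) + (b - b₀) := by ring
      rw [h4]
      exact dvd_add h3 h2
    have h5 := key t hz
    have h6 := key t' hz'
    have h7 := dvd_sub h6 h5
    refine hTi t ht t' ht' ?_
    have h8 : z - (dm x y W s * t' + b₀) - (z - (dm x y W s * t + b₀)) =
        dm x y W s * (t - t') := by ring
    rw [h8] at h7
    exact hcop.dvd_of_dvd_mul_left h7

/-- the multipliers are spread modulo `p` -/
def Conc (x y : ι → ℕ) (W : Finset ι) (p : ℕ) (κ : ℝ) : Prop :=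
  ∀ r : ZMod p, ((W.powerset.filter fun s => ((dm x y W s : ℤ) : ZMod p) = r).card : ℝ) ≤
    κ * 2 ^ W.card

theorem caseIIb (x y : ι → ℕ) (W : Finset ι) {p : ℕ} (hp : p.Prime) {κ : ℝ} (hκ0 : 0 ≤ κ)
    (hκ : Conc x y W p κ)
    (X B : Finset ℤ) (I : ℕ) (T : Finset ℤ) (hT : T ⊆ X) (hTn : T.Nonempty)
    (hTi : ∀ t ∈ T, ∀ t' ∈ T, ((p : ℤ) ^ I) ∣ t - t' → t = t')
    (U : Finset ℤ) (hU : U ⊆ B) (hUn : U.Nonempty)
    (hUi : ∀ t ∈ U, ∀ t' ∈ U, ((p : ℤ) ^ I) ∣ t - t' → t = t')
    (β : ℝ) (hβ : ((T.card : ℝ) * U.card) ^ 2 * κ ≤ β) :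
    (1 - β) * (Real.log T.card + Real.log U.card) +
      (∑ t ∈ T, ∑ v ∈ U, mu x y W (cls ((p : ℤ) ^ I) X t) (cls ((p : ℤ) ^ I) B v)) /
        (T.card * U.card) ≤ mu x y W X B := by
  have : Fact p.Prime := ⟨hp⟩
  have hTc : (0 : ℝ) < T.card := by exact_mod_cast hTn.card_pos
  have hUc : (0 : ℝ) < U.card := by exact_mod_cast hUn.card_pos
  set Q : ℤ := (p : ℤ) ^ I with hQ
  set V : Finset (ℤ × ℤ) := T ×ˢ U with hV
  have hVn : V.Nonempty := hTn.product hUn
  have hVc : (V.card : ℝ) = T.card * U.card := by rw [hV, Finset.card_product]; push_cast; ring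
  have hVc0 : (0 : ℝ) < V.card := by rw [hVc]; positivity
  have hVc1 : (1 : ℝ) ≤ V.card := by exact_mod_cast hVn.card_pos
  -- the pieces
  set D : ℤ → ℤ × ℤ → Finset ℤ := fun d w => dil d (cls Q X w.1) + cls Q B w.2 with hD
  have hDne : ∀ d, ∀ w ∈ V, (D d w).Nonempty := by
    intro d w hw
    rw [hV, Finset.mem_product] at hw
    refine Finset.Nonempty.add ?_ ?_
    · refine Finset.Nonempty.image ⟨w.1, ?_⟩ _
      rw [cls, Finset.mem_filter]
      exact ⟨hT hw.1, by simp⟩
    · refine ⟨w.2, ?_⟩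
      rw [cls, Finset.mem_filter]
      exact ⟨hU hw.2, by simp⟩
  have hDsub : ∀ d, ∀ w ∈ V, D d w ⊆ dil d X + B := by
    intro d w _
    refine Finset.add_subset_add ?_ (Finset.filter_subset _ _)
    exact Finset.image_subset_image (Finset.filter_subset _ _)
  set e : Finset ι → ℤ := fun s => dm x y W s with he
  -- good sets
  set good : Finset ι → Prop := fun s => ∀ w ∈ V, ∀ w' ∈ V,
    Q ∣ e s * (w.1 - w'.1) + (w.2 - w'.2) → w = w' with hgood
  have hbad_case : ∀ s, (∑ w ∈ V, Real.log ((D (e s) w).card : ℝ)) / V.card ≤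
      Real.log ((dil (e s) X + B).card : ℝ) := by
    intro s
    rw [div_le_iff₀ hVc0, mul_comm, ← nsmul_eq_mul, ← Finset.sum_const]
    refine Finset.sum_le_sum fun w hw => ?_
    refine Real.log_le_log (by exact_mod_cast (hDne _ w hw).card_pos) ?_
    exact_mod_cast Finset.card_le_card (hDsub _ w hw)
  have hgood_case : ∀ s, good s → Real.log V.card +
      (∑ w ∈ V, Real.log ((D (e s) w).card : ℝ)) / V.card ≤
      Real.log ((dil (e s) X + B).card : ℝ) := by
    intro s hs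
    refine (Pool.Agent.TH828.SQ1822.log_mean V hVn (fun w => ((D (e s) w).card : ℝ))
      fun w hw => by exact_mod_cast (hDne _ w hw).card_pos).trans ?_
    refine Real.log_le_log (Finset.sum_pos (fun w hw => by
      exact_mod_cast (hDne _ w hw).card_pos) hVn) ?_
    have hdisj : ∀ w ∈ V, ∀ w' ∈ V, w ≠ w' → Disjoint (D (e s) w) (D (e s) w') := by
      intro w hw w' hw' hne
      rw [Finset.disjoint_left]
      intro z hx hx'
      apply hne
      refine hs w hw w' hw' ?_
      obtain ⟨y', hy, b, hb, rfl⟩ := Finset.mem_add.1 hx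
      obtain ⟨y'', hy', b', hb', he'⟩ := Finset.mem_add.1 hx'
      obtain ⟨a, ha, rfl⟩ := Finset.mem_image.1 hy
      obtain ⟨a', ha', rfl⟩ := Finset.mem_image.1 hy'
      obtain ⟨k1, hk1⟩ := (Finset.mem_filter.1 ha).2
      obtain ⟨k2, hk2⟩ := (Finset.mem_filter.1 ha').2
      obtain ⟨k3, hk3⟩ := (Finset.mem_filter.1 hb).2
      obtain ⟨k4, hk4⟩ := (Finset.mem_filter.1 hb').2
      refine ⟨e s * (k2 - k1) + (k4 - k3), ?_⟩
      have e1 : w.1 = a - Q * k1 := by linarith
      have e2 : w'.1 = a' - Q * k2 := by linarith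
      have e3 : w.2 = b - Q * k3 := by linarith
      have e4 : w'.2 = b' - Q * k4 := by linarith
      rw [e1, e2, e3, e4]
      have e5 : b' = e s * a + b - e s * a' := by linarith
      rw [e5]
      ring
    have h1 : ∑ w ∈ V, (D (e s) w).card = (V.biUnion (D (e s))).card :=
      (Finset.card_biUnion hdisj).symm
    have h2 : (V.biUnion (D (e s))).card ≤ (dil (e s) X + B).card :=
      Finset.card_le_card (Finset.biUnion_subset.2 (hDsub _))
    calc ∑ w ∈ V, ((D (e s) w).card : ℝ) = ((∑ w ∈ V, (D (e s) w).card : ℕ) : ℝ) := by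
          push_cast; rfl
      _ ≤ _ := by rw [h1]; exact_mod_cast h2
  -- the number of bad sets
  set bad : Finset (Finset ι) := W.powerset.filter fun s => ¬ good s with hbad
  have hN : (0 : ℝ) < 2 ^ W.card := by positivity
  have hpair : ∀ w ∈ V, ∀ w' ∈ V, w ≠ w' → ((W.powerset.filter fun s =>
      Q ∣ e s * (w.1 - w'.1) + (w.2 - w'.2)).card : ℝ) ≤ κ * 2 ^ W.card := by
    intro w hw w' hw' hne
    rcases (W.powerset.filter fun s =>
      Q ∣ e s * (w.1 - w'.1) + (w.2 - w'.2)).eq_empty_or_nonempty with h0 | ⟨s0, hs0⟩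
    · rw [h0]; simp; positivity
    · refine le_trans (Nat.cast_le.2 (Finset.card_le_card ?_)) (hκ ((e s0 : ℤ) : ZMod p))
      intro s hs
      rw [Finset.mem_filter] at hs hs0 ⊢
      refine ⟨hs.1, ?_⟩
      rw [hV, Finset.mem_product] at hw hw'
      have h1 : Q ∣ (e s - e s0) * (w.1 - w'.1) := by
        have := dvd_sub hs.2 hs0.2
        have e' : e s * (w.1 - w'.1) + (w.2 - w'.2) - (e s0 * (w.1 - w'.1) + (w.2 - w'.2)) =
          (e s - e s0) * (w.1 - w'.1) := by ring
        rwa [e'] at this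
      by_contra hcon
      have h2 : ¬ (p : ℤ) ∣ e s - e s0 := by
        intro h
        apply hcon
        rw [← sub_eq_zero, ← Int.cast_sub, ZMod.intCast_zmod_eq_zero_iff_dvd]
        exact h
      have h3 : IsCoprime Q (e s - e s0) := by
        rw [hQ]
        refine IsCoprime.pow_left ?_
        exact (Int.prime_iff_natAbs_prime.2 (by simpa using hp)).coprime_iff_not_dvd.2 h2
      have h4 : Q ∣ w.1 - w'.1 := h3.dvd_of_dvd_mul_left h1
      have h5 : w.1 = w'.1 := hTi _ hw.1 _ hw'.1 h4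
      have h6 : Q ∣ w.2 - w'.2 := by
        have := hs.2
        rw [h5, sub_self, mul_zero, zero_add] at this
        exact this
      have h7 : w.2 = w'.2 := hUi _ hw.2 _ hw'.2 h6
      exact hne (Prod.ext h5 h7)
  have hbadc : (bad.card : ℝ) ≤ β * 2 ^ W.card := by
    have h1 : bad ⊆ (V ×ˢ V).biUnion fun a => if a.1 = a.2 then ∅ else
        W.powerset.filter fun s => Q ∣ e s * (a.1.1 - a.2.1) + (a.1.2 - a.2.2) := by
      intro s hs
      rw [hbad, Finset.mem_filter] at hs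
      obtain ⟨hsP, hs⟩ := hs
      simp only [hgood] at hs
      push Not at hs
      obtain ⟨w, hw, w', hw', hd, hne⟩ := hs
      rw [Finset.mem_biUnion]
      refine ⟨(w, w'), Finset.mk_mem_product hw hw', ?_⟩
      rw [if_neg hne, Finset.mem_filter]
      exact ⟨hsP, hd⟩
    have h2 : (bad.card : ℝ) ≤ (V.card * V.card) * (κ * 2 ^ W.card) := by
      calc (bad.card : ℝ) ≤ ∑ a ∈ V ×ˢ V, (((if a.1 = a.2 then ∅ else
            W.powerset.filter fun s => Q ∣ e s * (a.1.1 - a.2.1) + (a.1.2 - a.2.2)).card : ℕ) : ℝ) := by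
            exact_mod_cast (Finset.card_le_card h1).trans Finset.card_biUnion_le
        _ ≤ ∑ a ∈ V ×ˢ V, κ * 2 ^ W.card := by
            refine Finset.sum_le_sum fun a ha => ?_
            rw [Finset.mem_product] at ha
            split_ifs with h
            · simp; positivity
            · exact hpair _ ha.1 _ ha.2 h
        _ = (V.card * V.card) * (κ * 2 ^ W.card) := by
            rw [Finset.sum_const, Finset.card_product, nsmul_eq_mul]
            push_cast; ring
    refine h2.trans ?_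
    have h5 : (V.card : ℝ) * V.card * κ ≤ β := by
      rw [hVc]; nlinarith
    nlinarith
  -- averaging
  have hlogW : 0 ≤ Real.log V.card := Real.log_nonneg hVc1
  have hsum : (1 - β) * 2 ^ W.card * Real.log V.card +
      ∑ s ∈ W.powerset, (∑ w ∈ V, Real.log ((D (e s) w).card : ℝ)) / V.card ≤
      ∑ s ∈ W.powerset, Real.log ((dil (e s) X + B).card : ℝ) := by
    have h1 : ∑ s ∈ W.powerset, ((∑ w ∈ V, Real.log ((D (e s) w).card : ℝ)) / V.card +
        if good s then Real.log V.card else 0) ≤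
        ∑ s ∈ W.powerset, Real.log ((dil (e s) X + B).card : ℝ) := by
      refine Finset.sum_le_sum fun s _ => ?_
      split_ifs with h
      · have := hgood_case s h; linarith
      · rw [add_zero]; exact hbad_case s
    rw [Finset.sum_add_distrib, ← Finset.sum_filter, Finset.sum_const, nsmul_eq_mul] at h1
    have h2 : ((W.powerset.filter good).card : ℝ) + bad.card = 2 ^ W.card := by
      have := Finset.card_filter_add_card_filter_not (s := W.powerset) good
      rw [Finset.card_powerset] at this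
      exact_mod_cast this
    have h3 : (1 - β) * 2 ^ W.card ≤ ((W.powerset.filter good).card : ℝ) := by linarith
    have h4 := mul_le_mul_of_nonneg_right h3 hlogW
    linarith
  have hlog : Real.log V.card = Real.log T.card + Real.log U.card := by
    rw [hVc, Real.log_mul hTc.ne' hUc.ne']
  rw [← hlog, ← hVc]
  have hexp : ∑ t ∈ T, ∑ v ∈ U, mu x y W (cls Q X t) (cls Q B v) =
      (∑ s ∈ W.powerset, ∑ w ∈ V, Real.log ((D (e s) w).card : ℝ)) / 2 ^ W.card := by
    rw [hV, ← Finset.sum_product', Finset.sum_comm, Finset.sum_div]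
    rfl
  rw [hexp]
  unfold mu
  rw [le_div_iff₀ hN]
  rw [← Finset.sum_div] at hsum
  have e' : ((1 - β) * Real.log V.card + (∑ s ∈ W.powerset, ∑ w ∈ V,
      Real.log ((D (e s) w).card : ℝ)) / 2 ^ W.card / V.card) * 2 ^ W.card =
      (1 - β) * 2 ^ W.card * Real.log V.card +
      (∑ s ∈ W.powerset, ∑ w ∈ V, Real.log ((D (e s) w).card : ℝ)) / V.card := by
    field_simp
  rw [e']
  exact hsum

end Pool.Agent.T2h42.GD
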