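import Pool.Agent.T2h42.GD.Cases

/-!
A prime modulo which the multipliers are spread.
-/

set_option autoImplicit false

namespace Pool.Agent.T2h42.GD

open Finset Pool.Agent.TH83.SQ
open scoped Pointwise Classical

variable {ι : Type*}

theorem dm_erase (x y : ι → ℕ) {W s : Finset ι} (hs : s ⊆ W) {i : ι} (hi : i ∈ s) :
    (y i : ℤ) * dm x y W s = (x i : ℤ) * dm x y W (s.erase i) := by
  unfold dm
  have h1 : W \ s.erase i = insert i (W \ s) := by
    ext j
    simp only [Finset.mem_sdiff, Finset.mem_erase, Finset.mem_insert, not_and]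
    constructor
    · rintro ⟨h1, h2⟩
      by_cases h : j = i
      · exact Or.inl h
      · exact Or.inr ⟨h1, fun h3 => h2 h h3⟩
    · rintro (h | ⟨h1, h2⟩)
      · subst h
        exact ⟨hs hi, fun h => absurd rfl h⟩
      · exact ⟨h1, fun _ h3 => h2 h3⟩
  rw [h1, Finset.prod_insert (fun h => (Finset.mem_sdiff.1 h).2 hi),
    ← Finset.mul_prod_erase s (fun i => (x i : ℤ)) hi]
  ring

/-- the multipliers are spread if many of the ratios are distinct -/
theorem conc_of_distinct (x y : ι → ℕ) {W R : Finset ι} {p : ℕ} (hp : p.Prime)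
    (hf : Free x y W p) (hR : R ⊆ W) {K : ℕ} (hK0 : 0 < K) (hK : K ≤ R.card)
    (hd : ∀ i ∈ R, ∀ j ∈ R, (p : ℤ) ∣ (x i : ℤ) * y j - x j * y i → i = j) :
    Conc x y W p (2 / K) := by
  intro r
  have : Fact p.Prime := ⟨hp⟩
  set S := W.powerset.filter fun s => ((dm x y W s : ℤ) : ZMod p) = r with hS
  have hSm : ∀ s ∈ S, s ⊆ W ∧ ((dm x y W s : ℤ) : ZMod p) = r := by
    intro s hs
    rw [hS, Finset.mem_filter, Finset.mem_powerset] at hs
    exact hs
  have hne : ∀ s ⊆ W, ((dm x y W s : ℤ) : ZMod p) ≠ 0 := by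
    intro s hs h0
    have h1 := dm_cop hp hf hs
    rw [ZMod.intCast_zmod_eq_zero_iff_dvd] at h0
    have h2 := h1.isUnit_of_dvd' (dvd_refl _) h0
    rw [Int.isUnit_iff] at h2
    have := hp.two_le
    omega
  have hz : ∀ i ∈ R, ∀ j ∈ R, ((x i : ZMod p)) * y j = x j * y i → i = j := by
    intro i hi j hj h
    apply hd i hi j hj
    rw [← ZMod.intCast_zmod_eq_zero_iff_dvd]
    push_cast
    rw [h, sub_self]
  have herase : ∀ s ⊆ W, ∀ i ∈ s, (y i : ZMod p) * ((dm x y W s : ℤ) : ZMod p) =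
      (x i : ZMod p) * ((dm x y W (s.erase i) : ℤ) : ZMod p) := by
    intro s hs i hi
    have := congrArg (fun z : ℤ => (z : ZMod p)) (dm_erase x y hs hi)
    push_cast at this
    exact this
  have h1 : ∑ s ∈ S, (s ∩ R).card ≤ 2 ^ W.card := by
    rw [← Finset.card_sigma, ← Finset.card_powerset]
    refine Finset.card_le_card_of_injOn (fun x => x.1.erase x.2) ?_ ?_
    · intro z hx
      rw [Finset.mem_coe, Finset.mem_sigma] at hx
      rw [Finset.mem_coe, Finset.mem_powerset]
      exact (Finset.erase_subset _ _).trans (hSm _ hx.1).1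
    · rintro ⟨s, q⟩ hx ⟨s', q'⟩ hx' h
      rw [Finset.mem_coe, Finset.mem_sigma] at hx hx'
      simp only [Finset.mem_inter] at h hx hx'
      obtain ⟨hs, hr⟩ := hSm _ hx.1
      obtain ⟨hs', hr'⟩ := hSm _ hx'.1
      have e1 := herase s hs q hx.2.1
      have e2 := herase s' hs' q' hx'.2.1
      rw [← h] at e2
      rw [hr] at e1
      rw [hr'] at e2
      have hu := hne (s.erase q) ((Finset.erase_subset q s).trans hs)
      have e4 : q = q' := by
        apply hz q hx.2.2 q' hx'.2.2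
        apply mul_right_cancel₀ hu
        calc (x q : ZMod p) * y q' * ((dm x y W (s.erase q) : ℤ) : ZMod p) =
            y q' * ((x q : ZMod p) * ((dm x y W (s.erase q) : ℤ) : ZMod p)) := by ring
          _ = y q' * (y q * r) := by rw [e1]
          _ = y q * (y q' * r) := by ring
          _ = y q * ((x q' : ZMod p) * ((dm x y W (s.erase q) : ℤ) : ZMod p)) := by rw [e2]
          _ = _ := by ring
      subst e4
      have e5 : s = s' := by
        rw [← Finset.insert_erase hx.2.1, h, Finset.insert_erase hx'.2.1]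
      subst e5
      rfl
  have h2 : ∑ s ∈ S, (R \ s).card ≤ 2 ^ W.card := by
    rw [← Finset.card_sigma, ← Finset.card_powerset]
    refine Finset.card_le_card_of_injOn (fun x => insert x.2 x.1) ?_ ?_
    · intro z hx
      rw [Finset.mem_coe, Finset.mem_sigma] at hx
      rw [Finset.mem_coe, Finset.mem_powerset]
      exact Finset.insert_subset (hR (Finset.mem_sdiff.1 hx.2).1) (hSm _ hx.1).1
    · rintro ⟨s, q⟩ hx ⟨s', q'⟩ hx' h
      rw [Finset.mem_coe, Finset.mem_sigma] at hx hx'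
      simp only at h hx hx'
      obtain ⟨hs, hr⟩ := hSm _ hx.1
      obtain ⟨hs', hr'⟩ := hSm _ hx'.1
      obtain ⟨hq1, hq2⟩ := Finset.mem_sdiff.1 hx.2
      obtain ⟨hq1', hq2'⟩ := Finset.mem_sdiff.1 hx'.2
      have e1 := herase (insert q s) (Finset.insert_subset (hR hq1) hs) q
        (Finset.mem_insert_self _ _)
      have e2 := herase (insert q' s') (Finset.insert_subset (hR hq1') hs') q'
        (Finset.mem_insert_self _ _)
      rw [Finset.erase_insert hq2, hr] at e1
      rw [Finset.erase_insert hq2', hr', ← h] at e2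
      have hu := hne (insert q s) (Finset.insert_subset (hR hq1) hs)
      have e4 : q = q' := by
        apply hz q hq1 q' hq1'
        apply mul_right_cancel₀ hu
        have hur : r ≠ 0 := by rw [← hr]; exact hne s hs
        apply mul_right_cancel₀ hur
        calc (x q : ZMod p) * y q' * ((dm x y W (insert q s) : ℤ) : ZMod p) * r =
            (x q * r) * (y q' * ((dm x y W (insert q s) : ℤ) : ZMod p)) := by ring
          _ = (y q * ((dm x y W (insert q s) : ℤ) : ZMod p)) * (x q' * r) := by rw [e1, e2]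
          _ = _ := by ring
      subst e4
      have e5 : s = s' := by
        rw [← Finset.erase_insert hq2, h, Finset.erase_insert hq2']
      subst e5
      rfl
  have h3 : ∑ s ∈ S, (s ∩ R).card + ∑ s ∈ S, (R \ s).card = R.card * S.card := by
    rw [← Finset.sum_add_distrib, mul_comm, ← smul_eq_mul, ← Finset.sum_const]
    refine Finset.sum_congr rfl fun s hs => ?_
    rw [add_comm, Finset.inter_comm]
    exact Finset.card_sdiff_add_card_inter R s
  have h4 : K * S.card ≤ 2 * 2 ^ W.card := (Nat.mul_le_mul_right _ hK).trans (by omega)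
  have hK' : (0 : ℝ) < K := by exact_mod_cast hK0
  rw [div_mul_eq_mul_div, le_div_iff₀ hK']
  have h5 : (K : ℝ) * S.card ≤ 2 * 2 ^ W.card := by exact_mod_cast h4
  linarith

/-- admissible toggles -/
structure Tog (x y : ι → ℕ) (W : Finset ι) : Prop where
  ne : ∀ i ∈ W, x i ≠ y i
  sf : ∀ i ∈ W, Squarefree (x i * y i)
  cop : ∀ i ∈ W, ∀ j ∈ W, i ≠ j → Nat.Coprime (x i * y i) (x j * y j)

theorem Tog.mono {x y : ι → ℕ} {W V : Finset ι} (h : Tog x y W) (hV : V ⊆ W) : Tog x y V :=
  ⟨fun i hi => h.ne i (hV hi), fun i hi => h.sf i (hV hi),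
    fun i hi j hj hij => h.cop i (hV hi) j (hV hj) hij⟩

theorem Tog.pos {x y : ι → ℕ} {W : Finset ι} (h : Tog x y W) {i : ι} (hi : i ∈ W) :
    0 < x i ∧ 0 < y i := by
  have h1 := (h.sf i hi).ne_zero
  constructor
  · exact Nat.pos_of_ne_zero fun h0 => h1 (by rw [h0, zero_mul])
  · exact Nat.pos_of_ne_zero fun h0 => h1 (by rw [h0, mul_zero])

theorem Tog.one_lt {x y : ι → ℕ} {W : Finset ι} (h : Tog x y W) {i : ι} (hi : i ∈ W) :
    1 < x i * y i := by
  obtain ⟨h1, h2⟩ := h.pos hi
  by_contra hcon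
  have h3 : x i * y i = 1 := by
    have := Nat.mul_pos h1 h2
    omega
  have h4 := Nat.eq_one_of_mul_eq_one_right h3
  have h5 := Nat.eq_one_of_mul_eq_one_left h3
  exact h.ne i hi (h4.trans h5.symm)

theorem Tog.free {x y : ι → ℕ} {W : Finset ι} (h : Tog x y W) {l : ι} (hl : l ∈ W) {p : ℕ}
    (hp : p.Prime) (hpl : p ∣ x l * y l) : Free x y (W.erase l) p := by
  intro i hi
  obtain ⟨hil, hiW⟩ := Finset.mem_erase.1 hi
  have hc := h.cop i hiW l hl hil
  constructor
  · intro hd
    have h1 : p ∣ x i * y i := hd.mul_right _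
    exact Nat.not_coprime_of_dvd_of_dvd hp.one_lt h1 hpl hc
  · intro hd
    have h1 : p ∣ x i * y i := hd.mul_left _
    exact Nat.not_coprime_of_dvd_of_dvd hp.one_lt h1 hpl hc

theorem Tog.diff_ne {x y : ι → ℕ} {W : Finset ι} (h : Tog x y W) {i j : ι} (hi : i ∈ W)
    (hj : j ∈ W) (hij : i ≠ j) : (x i : ℤ) * y j - x j * y i ≠ 0 := by
  intro h0
  have h1 : x i * y j = x j * y i := by
    have : (x i : ℤ) * y j = x j * y i := by linarith
    exact_mod_cast this
  have hc := h.cop i hi j hj hij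
  have hci := (Nat.squarefree_mul_iff.1 (h.sf i hi)).1
  have hxx : Nat.Coprime (x i) (x j) :=
    Nat.Coprime.coprime_dvd_left (dvd_mul_right _ _) (Nat.Coprime.coprime_dvd_right
      (dvd_mul_right _ _) hc)
  have hyy : Nat.Coprime (y i) (y j) :=
    Nat.Coprime.coprime_dvd_left (dvd_mul_left _ _) (Nat.Coprime.coprime_dvd_right
      (dvd_mul_left _ _) hc)
  have e1 : x i = 1 := by
    have h2 : Nat.Coprime (x i) (x j * y i) := Nat.Coprime.mul_right hxx hci
    have h3 : x i ∣ x j * y i := ⟨y j, h1.symm⟩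
    exact Nat.Coprime.eq_one_of_dvd h2 h3
  have e2 : y i = 1 := by
    have h2 : Nat.Coprime (y i) (x i * y j) := Nat.Coprime.mul_right hci.symm hyy
    have h3 : y i ∣ x i * y j := ⟨x j, by rw [h1]; ring⟩
    exact Nat.Coprime.eq_one_of_dvd h2 h3
  exact h.ne i hi (e1.trans e2.symm)

/-- few distinct ratios give many coincidences -/
theorem many_pairs (x y : ι → ℕ) {V : Finset ι} {p : ℕ} (hp : p.Prime) (hf : Free x y V p)
    {K : ℕ} (hno : ∀ R ⊆ V, (∀ i ∈ R, ∀ j ∈ R, (p : ℤ) ∣ (x i : ℤ) * y j - x j * y i → i = j) →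
      R.card ≤ K) :
    (V.card : ℝ) ^ 2 ≤ K * (((V ×ˢ V).filter fun w => w.1 ≠ w.2 ∧
      (p : ℤ) ∣ (x w.1 : ℤ) * y w.2 - x w.2 * y w.1).card + V.card) := by
  have : Fact p.Prime := ⟨hp⟩
  set φ : ι → ZMod p := fun i => (x i : ZMod p) / y i with hφ
  have hy0 : ∀ i ∈ V, (y i : ZMod p) ≠ 0 := by
    intro i hi h0
    rw [ZMod.natCast_eq_zero_iff] at h0
    exact (hf i hi).2 h0
  have hφi : ∀ i ∈ V, ∀ j ∈ V, (φ i = φ j ↔ (p : ℤ) ∣ (x i : ℤ) * y j - x j * y i) := by
    intro i hi j hj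
    rw [← ZMod.intCast_zmod_eq_zero_iff_dvd, hφ]
    push_cast
    rw [div_eq_div_iff (hy0 i hi) (hy0 j hj), sub_eq_zero]
  -- few values
  have him : (V.image φ).card ≤ K := by
    rcases V.eq_empty_or_nonempty with hV0 | ⟨i₀, _⟩
    · rw [hV0]; simp
    haveI : Nonempty ι := ⟨i₀⟩
    have hex : ∀ r ∈ V.image φ, ∃ i ∈ V, φ i = r := fun r hr => by simpa using hr
    choose! g hg1 hg2 using hex
    have h1 : ((V.image φ).image g).card = (V.image φ).card := by
      apply Finset.card_image_of_injOn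
      intro r hr r' hr' h
      rw [← hg2 r hr, ← hg2 r' hr', h]
    rw [← h1]
    apply hno
    · intro i hi
      obtain ⟨r, hr, rfl⟩ := Finset.mem_image.1 hi
      exact hg1 r hr
    · intro i hi j hj hd
      obtain ⟨r, hr, rfl⟩ := Finset.mem_image.1 hi
      obtain ⟨r', hr', rfl⟩ := Finset.mem_image.1 hj
      have h2 := (hφi _ (hg1 r hr) _ (hg1 r' hr')).2 hd
      rw [hg2 r hr, hg2 r' hr'] at h2
      rw [h2]
  set P := (V ×ˢ V).filter fun w => φ w.1 = φ w.2 with hP
  have hPc : ((V.image φ).biUnion fun r => (V.filter fun i => φ i = r) ×ˢ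
      (V.filter fun i => φ i = r)) = P := by
    ext ⟨i, j⟩
    simp only [Finset.mem_biUnion, Finset.mem_image, Finset.mem_product, Finset.mem_filter, hP]
    constructor
    · rintro ⟨r, _, ⟨h1, h2⟩, h3, h4⟩
      exact ⟨⟨h1, h3⟩, h2.trans h4.symm⟩
    · rintro ⟨⟨h1, h2⟩, h3⟩
      exact ⟨φ i, ⟨i, h1, rfl⟩, ⟨h1, rfl⟩, h2, h3.symm⟩
  have h1 : ∑ r ∈ V.image φ, ((V.filter fun i => φ i = r).card) ^ 2 = P.card := by
    rw [← hPc, Finset.card_biUnion]
    · refine Finset.sum_congr rfl fun r _ => ?_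
      rw [Finset.card_product, sq]
    · intro r _ r' _ hne
      show Disjoint _ _
      rw [Finset.disjoint_left]
      rintro ⟨i, j⟩ h h'
      rw [Finset.mem_product, Finset.mem_filter] at h h'
      exact hne (h.1.2.symm.trans h'.1.2)
  have h2 : ∑ r ∈ V.image φ, (V.filter fun i => φ i = r).card = V.card :=
    (Finset.card_eq_sum_card_image φ V).symm
  have h3 : (V.card : ℝ) ^ 2 ≤ (V.image φ).card * P.card := by
    have h4 := sq_sum_le_card_mul_sum_sq (s := V.image φ)
      (f := fun r => ((V.filter fun i => φ i = r).card : ℝ))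
    have h5 : ∑ r ∈ V.image φ, ((V.filter fun i => φ i = r).card : ℝ) = V.card := by
      exact_mod_cast h2
    have h6 : ∑ r ∈ V.image φ, ((V.filter fun i => φ i = r).card : ℝ) ^ 2 = P.card := by
      exact_mod_cast h1
    rw [h5, h6] at h4
    exact h4
  have h4 : P.card ≤ ((V ×ˢ V).filter fun w => w.1 ≠ w.2 ∧
      (p : ℤ) ∣ (x w.1 : ℤ) * y w.2 - x w.2 * y w.1).card + V.card := by
    have h5 : P ⊆ ((V ×ˢ V).filter fun w => w.1 ≠ w.2 ∧
      (p : ℤ) ∣ (x w.1 : ℤ) * y w.2 - x w.2 * y w.1) ∪ V.image fun i => (i, i) := by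
      rintro ⟨i, j⟩ h
      rw [hP, Finset.mem_filter, Finset.mem_product] at h
      simp only at h
      rw [Finset.mem_union, Finset.mem_filter, Finset.mem_product, Finset.mem_image]
      by_cases hij : i = j
      · right
        exact ⟨i, h.1.1, by rw [hij]⟩
      · left
        exact ⟨h.1, hij, (hφi i h.1.1 j h.1.2).1 h.2⟩
    exact (Finset.card_le_card h5).trans ((Finset.card_union_le _ _).trans
      (Nat.add_le_add_left Finset.card_image_le _))
  have h5 : (P.card : ℝ) ≤ ((V ×ˢ V).filter fun w => w.1 ≠ w.2 ∧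
      (p : ℤ) ∣ (x w.1 : ℤ) * y w.2 - x w.2 * y w.1).card + V.card := by exact_mod_cast h4
  have h6 : ((V.image φ).card : ℝ) ≤ K := by exact_mod_cast him
  calc (V.card : ℝ) ^ 2 ≤ (V.image φ).card * P.card := h3
    _ ≤ K * _ := mul_le_mul h6 h5 (Nat.cast_nonneg _) (Nat.cast_nonneg _)

/-- primes dividing a nonzero integer -/
theorem sum_log_primes_le {s : Finset ℕ} (hs : ∀ p ∈ s, p.Prime) {z : ℤ} (hz : z ≠ 0)
    (hd : ∀ p ∈ s, (p : ℤ) ∣ z) : ∑ p ∈ s, Real.log (p : ℝ) ≤ Real.log (z.natAbs : ℝ) := by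
  have h1 : ∏ p ∈ s, p ∣ z.natAbs := by
    apply Finset.prod_primes_dvd
    · intro p hp; exact (hs p hp).prime
    · intro p hp
      have := Int.natAbs_dvd_natAbs.2 (hd p hp)
      simpa using this
  have h2 : ∏ p ∈ s, p ≤ z.natAbs := Nat.le_of_dvd (Int.natAbs_pos.2 hz) h1
  have h3 : ∑ p ∈ s, Real.log (p : ℝ) = Real.log ((∏ p ∈ s, p : ℕ) : ℝ) := by
    push_cast
    rw [Real.log_prod]
    intro p hp
    exact_mod_cast (hs p hp).ne_zero
  rw [h3]
  apply Real.log_le_log
  · exact_mod_cast Finset.prod_pos fun p hp => (hs p hp).pos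
  · exact_mod_cast h2

theorem exists_good (x y : ι → ℕ) {W : Finset ι} (h : Tog x y W) {K : ℕ}
    (hW : 3 * K + 2 ≤ W.card) :
    ∃ l ∈ W, ∃ p : ℕ, p.Prime ∧ p ∣ x l * y l ∧ ∃ R ⊆ W.erase l, K < R.card ∧
      ∀ i ∈ R, ∀ j ∈ R, (p : ℤ) ∣ (x i : ℤ) * y j - x j * y i → i = j := by
  by_contra hcon
  push Not at hcon
  have hno : ∀ l ∈ W, ∀ p : ℕ, p.Prime → p ∣ x l * y l → ∀ R ⊆ W.erase l,
      (∀ i ∈ R, ∀ j ∈ R, (p : ℤ) ∣ (x i : ℤ) * y j - x j * y i → i = j) → R.card ≤ K := by
    intro l hl p hp hpl R hR hd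
    by_contra hlt
    obtain ⟨i, hi, j, hj, h1, h2⟩ := hcon l hl p hp hpl R hR (not_le.1 hlt)
    exact h2 (hd i hi j hj h1)
  set m : ℝ := (W.card : ℝ) - 1 with hm
  have hWc : (3 * (K : ℝ) + 2) ≤ W.card := by exact_mod_cast hW
  have hm0 : 0 < m := by rw [hm]; have : (0:ℝ) ≤ K := Nat.cast_nonneg K; linarith
  have hK0 : 0 < K := by
    rcases Nat.eq_zero_or_pos K with h0 | h0
    · exfalso
      have hn : W.Nonempty := by
        rw [← Finset.card_pos]; omega
      obtain ⟨l, hl⟩ := hn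
      obtain ⟨p, hp, hpl⟩ := Nat.exists_prime_and_dvd (h.one_lt hl).ne'
      have h2 : (W.erase l).Nonempty := by
        rw [← Finset.card_pos, Finset.card_erase_of_mem hl]; omega
      obtain ⟨i, hi⟩ := h2
      have := hno l hl p hp hpl {i} (Finset.singleton_subset_iff.2 hi) (by simp)
      simp at this
      omega
    · exact h0
  have hK0' : (0 : ℝ) < K := by exact_mod_cast hK0
  set E : ι → ℕ → Finset (ι × ι) := fun l p => ((W.erase l) ×ˢ (W.erase l)).filter fun w =>
    w.1 ≠ w.2 ∧ (p : ℤ) ∣ (x w.1 : ℤ) * y w.2 - x w.2 * y w.1 with hE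
  have hlog : ∀ i ∈ W, 0 < Real.log ((x i * y i : ℕ) : ℝ) := fun i hi =>
    Real.log_pos (by exact_mod_cast h.one_lt hi)
  set L : ℝ := ∑ i ∈ W, Real.log ((x i * y i : ℕ) : ℝ) with hL
  have hL0 : 0 < L := Finset.sum_pos hlog (by rw [← Finset.card_pos]; omega)
  have hsum : ∀ l ∈ W, ∑ p ∈ (x l * y l).primeFactors, Real.log (p : ℝ) =
      Real.log ((x l * y l : ℕ) : ℝ) := by
    intro l hl
    conv_rhs => rw [← Nat.prod_primeFactors_of_squarefree (h.sf l hl)]
    rw [Nat.cast_prod, Real.log_prod]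
    intro p hp
    exact_mod_cast (Nat.prime_of_mem_primeFactors hp).ne_zero
  -- lower bound
  have hlow : L * (m * (m / K - 1)) ≤ ∑ l ∈ W, ∑ p ∈ (x l * y l).primeFactors,
      Real.log (p : ℝ) * (E l p).card := by
    rw [hL, Finset.sum_mul]
    refine Finset.sum_le_sum fun l hl => ?_
    rw [← hsum l hl, Finset.sum_mul]
    refine Finset.sum_le_sum fun p hp => ?_
    have hpp := Nat.prime_of_mem_primeFactors hp
    have hpd := Nat.dvd_of_mem_primeFactors hp
    have h1 := many_pairs x y hpp (h.free hl hpp hpd) (hno l hl p hpp hpd)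
    have h2 : ((W.erase l).card : ℝ) = m := by
      rw [Finset.card_erase_of_mem hl, hm]
      have : 1 ≤ W.card := by omega
      push_cast [Nat.cast_sub this]
      ring
    rw [h2] at h1
    have h3 : m * (m / K - 1) ≤ (E l p).card := by
      have h4 : m ^ 2 / K ≤ (E l p).card + m := by
        rw [div_le_iff₀ hK0']
        linarith
      have h5 : m * (m / K - 1) = m ^ 2 / K - m := by ring
      linarith
    exact mul_le_mul_of_nonneg_left h3 (Real.log_natCast_nonneg _)
  -- upper bound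
  have hup : ∑ l ∈ W, ∑ p ∈ (x l * y l).primeFactors, Real.log (p : ℝ) * (E l p).card ≤
      2 * m * L := by
    have h1 : ∑ l ∈ W, ∑ p ∈ (x l * y l).primeFactors, Real.log (p : ℝ) * (E l p).card =
        ∑ w ∈ (W ×ˢ W).filter (fun w => w.1 ≠ w.2), ∑ l ∈ W, ∑ p ∈ (x l * y l).primeFactors,
          if w ∈ E l p then Real.log (p : ℝ) else 0 := by
      rw [Finset.sum_comm]
      refine Finset.sum_congr rfl fun l hl => ?_
      rw [Finset.sum_comm]
      refine Finset.sum_congr rfl fun p hp => ?_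
      rw [← Finset.sum_filter, Finset.sum_const, nsmul_eq_mul, mul_comm]
      congr 2
      congr 1
      ext w
      simp only [hE, Finset.mem_filter, Finset.mem_product, Finset.mem_erase]
      constructor
      · rintro ⟨⟨⟨a1, a2⟩, a3, a4⟩, a5, a6⟩
        exact ⟨⟨⟨a2, a4⟩, a5⟩, ⟨⟨a1, a2⟩, a3, a4⟩, a5, a6⟩
      · rintro ⟨_, h⟩
        exact h
    rw [h1]
    have h2 : ∀ w ∈ (W ×ˢ W).filter (fun w => w.1 ≠ w.2), (∑ l ∈ W,
        ∑ p ∈ (x l * y l).primeFactors, if w ∈ E l p then Real.log (p : ℝ) else 0) ≤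
        Real.log ((x w.1 * y w.1 : ℕ) : ℝ) + Real.log ((x w.2 * y w.2 : ℕ) : ℝ) := by
      rintro ⟨i, j⟩ hw
      rw [Finset.mem_filter, Finset.mem_product] at hw
      obtain ⟨⟨hi, hj⟩, hij⟩ := hw
      simp only at hi hj hij ⊢
      set z : ℤ := (x i : ℤ) * y j - x j * y i with hz
      have hz0 : z ≠ 0 := h.diff_ne hi hj hij
      set G : Finset ℕ := W.biUnion fun l => (x l * y l).primeFactors.filter fun p =>
        (i, j) ∈ E l p with hG
      have h3 : ∑ l ∈ W, ∑ p ∈ (x l * y l).primeFactors,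
          (if (i, j) ∈ E l p then Real.log (p : ℝ) else 0) = ∑ p ∈ G, Real.log (p : ℝ) := by
        rw [hG, Finset.sum_biUnion]
        · refine Finset.sum_congr rfl fun l _ => ?_
          rw [Finset.sum_filter]
        · intro l hl l' hl' hne
          show Disjoint _ _
          rw [Finset.disjoint_left]
          intro p hp hp'
          have a1 := Nat.dvd_of_mem_primeFactors (Finset.mem_filter.1 hp).1
          have a2 := Nat.dvd_of_mem_primeFactors (Finset.mem_filter.1 hp').1
          have a3 := Nat.prime_of_mem_primeFactors (Finset.mem_filter.1 hp).1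
          exact Nat.not_coprime_of_dvd_of_dvd a3.one_lt a1 a2 (h.cop l hl l' hl' hne)
      rw [h3]
      have h4 : ∑ p ∈ G, Real.log (p : ℝ) ≤ Real.log (z.natAbs : ℝ) := by
        apply sum_log_primes_le _ hz0
        · intro p hp
          obtain ⟨l, _, hp⟩ := Finset.mem_biUnion.1 hp
          have := (Finset.mem_filter.1 (Finset.mem_filter.1 hp).2).2.2
          exact this
        · intro p hp
          obtain ⟨l, _, hp⟩ := Finset.mem_biUnion.1 hp
          exact Nat.prime_of_mem_primeFactors (Finset.mem_filter.1 hp).1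
      refine h4.trans ?_
      obtain ⟨xi, yi⟩ := h.pos hi
      obtain ⟨xj, yj⟩ := h.pos hj
      rw [← Real.log_mul (by positivity) (by positivity)]
      apply Real.log_le_log
      · exact_mod_cast Int.natAbs_pos.2 hz0
      · have h5 : z.natAbs ≤ (x i * y i) * (x j * y j) := by
          have b1 : x i * y j ≤ (x i * y i) * (x j * y j) := by
            calc x i * y j = x i * 1 * (1 * y j) := by ring
              _ ≤ (x i * y i) * (x j * y j) :=
                Nat.mul_le_mul (Nat.mul_le_mul_left _ yi) (Nat.mul_le_mul_right _ xj)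
          have b2 : x j * y i ≤ (x i * y i) * (x j * y j) := by
            calc x j * y i = (1 * y i) * (x j * 1) := by ring
              _ ≤ (x i * y i) * (x j * y j) :=
                Nat.mul_le_mul (Nat.mul_le_mul_right _ xi) (Nat.mul_le_mul_left _ yj)
          have b3 : z = ((x i * y j : ℕ) : ℤ) - ((x j * y i : ℕ) : ℤ) := by
            rw [hz]; push_cast; ring
          omega
        exact_mod_cast h5
    refine (Finset.sum_le_sum h2).trans ?_
    have h6 : ∀ f : ι → ℝ, ∑ w ∈ (W ×ˢ W).filter (fun w => w.1 ≠ w.2), f w.1 =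
        m * ∑ i ∈ W, f i := by
      intro f
      rw [Finset.sum_filter, Finset.sum_product, Finset.mul_sum]
      refine Finset.sum_congr rfl fun i hi => ?_
      rw [← Finset.sum_filter]
      show ∑ a ∈ W.filter (fun j => i ≠ j), f i = m * f i
      rw [Finset.sum_const, nsmul_eq_mul]
      congr 1
      have : W.filter (fun j => i ≠ j) = W.erase i := by
        ext j; simp only [Finset.mem_filter, Finset.mem_erase]; tauto
      rw [this, Finset.card_erase_of_mem hi, hm]
      have : 1 ≤ W.card := by omega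
      push_cast [Nat.cast_sub this]
      ring
    have h7 : ∀ f : ι → ℝ, ∑ w ∈ (W ×ˢ W).filter (fun w => w.1 ≠ w.2), f w.2 =
        m * ∑ i ∈ W, f i := by
      intro f
      rw [← h6 f]
      refine Finset.sum_bij' (fun w _ => (w.2, w.1)) (fun w _ => (w.2, w.1)) ?_ ?_ ?_ ?_ ?_
      · rintro ⟨a, b⟩ hw
        simp only [Finset.mem_filter, Finset.mem_product] at hw ⊢
        exact ⟨⟨hw.1.2, hw.1.1⟩, Ne.symm hw.2⟩
      · rintro ⟨a, b⟩ hw
        simp only [Finset.mem_filter, Finset.mem_product] at hw ⊢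
        exact ⟨⟨hw.1.2, hw.1.1⟩, Ne.symm hw.2⟩
      · rintro ⟨a, b⟩ _; rfl
      · rintro ⟨a, b⟩ _; rfl
      · rintro ⟨a, b⟩ _; rfl
    rw [Finset.sum_add_distrib, h6 (fun i => Real.log ((x i * y i : ℕ) : ℝ)),
      h7 (fun i => Real.log ((x i * y i : ℕ) : ℝ)), ← hL]
    linarith
  have h8 := hlow.trans hup
  have h9 : m * (m / K - 1) ≤ 2 * m := by
    have : L * (m * (m / K - 1)) ≤ L * (2 * m) := by linarith
    exact le_of_mul_le_mul_left this hL0
  have h10 : m / K - 1 ≤ 2 := by
    have : m * (m / K - 1) ≤ m * 2 := by linarith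
    exact le_of_mul_le_mul_left this hm0
  have h11 : m ≤ 3 * K := by
    have : m / K ≤ 3 := by linarith
    rwa [div_le_iff₀ hK0'] at this
  rw [hm] at h11
  linarith

end Pool.Agent.T2h42.GD
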