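import Pool.Agent.T2h42.GD.Good

/-!
The induction: some multiplier has a large sum set.
-/

set_option autoImplicit false

namespace Pool.Agent.T2h42.GD

open Finset Pool.Agent.TH83.SQ
open scoped Pointwise Classical

variable {ι : Type*}

theorem cls_dil' {Q b : ℤ} (hQ : IsCoprime Q b) (X : Finset ℤ) (x₀ : ℤ) :
    cls Q (dil b X) (b * x₀) = dil b (cls Q X x₀) := by
  ext z
  simp only [cls, dil, Finset.mem_filter, Finset.mem_image]
  constructor
  · rintro ⟨⟨u, hu, rfl⟩, h⟩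
    refine ⟨u, ⟨hu, ?_⟩, rfl⟩
    rw [← mul_sub] at h
    exact hQ.dvd_of_dvd_mul_left h
  · rintro ⟨u, ⟨hu, h⟩, rfl⟩
    refine ⟨⟨u, hu, rfl⟩, ?_⟩
    rw [← mul_sub]
    exact h.mul_left _

theorem exists_cst' (δ R : ℝ) (hδ : 0 < δ) : ∃ (c : Cst δ R) (K : ℕ), 0 < K ∧
    3 * K + 2 ≤ c.j₀ ∧ ((2 : ℝ) ^ c.MX * 2 ^ c.MB) ^ 2 * (2 / K) ≤ δ / 2 := by
  obtain ⟨c⟩ := exists_cst δ R hδ
  obtain ⟨K, hK⟩ := exists_nat_ge (((2 : ℝ) ^ c.MX * 2 ^ c.MB) ^ 2 * 2 / (δ / 2))
  have hpos : (0 : ℝ) < ((2 : ℝ) ^ c.MX * 2 ^ c.MB) ^ 2 * 2 / (δ / 2) := by positivity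
  have hK0 : (0 : ℝ) < K := lt_of_lt_of_le hpos hK
  refine ⟨⟨c.K₀, c.MB, c.MX, max c.j₀ (3 * K + 2), c.K₀2, c.hK₀, c.hMB, c.hMX, ?_, ?_⟩, K,
    by exact_mod_cast hK0, le_max_right _ _, ?_⟩
  · refine c.hj₀.trans ?_
    apply mul_le_mul_of_nonneg_left _ (by positivity)
    exact_mod_cast le_max_left _ _
  · exact c.hj₀1.trans (le_max_left _ _)
  · rw [div_le_iff₀ (by positivity)] at hK
    show ((2 : ℝ) ^ c.MX * 2 ^ c.MB) ^ 2 * (2 / K) ≤ δ / 2
    rw [← mul_div_assoc, div_le_iff₀ hK0]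
    linarith

theorem mu_ge (x y : ι → ℕ) {δ R : ℝ} (hδ : 0 < δ) (hδ1 : δ < 1) (hR : 0 < R) (c : Cst δ R)
    {K : ℕ} (hK : 0 < K) (hKj : 3 * K + 2 ≤ c.j₀)
    (hKc : ((2 : ℝ) ^ c.MX * 2 ^ c.MB) ^ 2 * (2 / K) ≤ δ / 2) (N : ℕ) :
    ∀ W : Finset ι, W.card = N → Tog x y W → ∀ X B : Finset ℤ, X.Nonempty → B.Nonempty →
      bd δ R c W.card (Sz X B) ≤ mu x y W X B := by
  have hl : 0 < Real.log 2 := Real.log_pos (by norm_num)
  induction N with
  | zero =>
    intro W hW _ X B hX hB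
    exact (bd_small hδ hR c (by rw [hW]; exact Nat.zero_le _) (Sz_nonneg X B)).trans
      (mu_nonneg _ _ _ _ _)
  | succ N ih =>
    intro W hWN hT' X B hX hB
    by_cases hj : N < c.j₀
    · exact (bd_small hδ hR c (by rw [hWN]; exact hj) (Sz_nonneg X B)).trans
        (mu_nonneg _ _ _ _ _)
    push Not at hj
    by_cases hS : Sz X B ≤ Real.log c.K₀
    · exact (bd_low hδ hR c (Sz_nonneg X B) hS).trans (mu_nonneg _ _ _ _ _)
    push Not at hS
    have hK0 : (0 : ℝ) < c.K₀ := by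
      have := c.K₀2
      exact_mod_cast (by omega : 0 < c.K₀)
    have cX : (0 : ℝ) < X.card := by exact_mod_cast hX.card_pos
    have cB : (0 : ℝ) < B.card := by exact_mod_cast hB.card_pos
    have hbig : c.K₀ ≤ X.card * B.card := by
      have h1 : Real.log c.K₀ < Real.log (X.card * B.card) := by
        rw [Real.log_mul cX.ne' cB.ne']; exact hS
      have h2 := (Real.log_lt_log_iff hK0 (by positivity)).1 h1
      exact_mod_cast h2.le
    -- the good toggle
    obtain ⟨l, hlW, p, hp, hpl, Rr, hRr, hRc, hRd⟩ := exists_good x y hT' (K := K) (by omega)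
    set V : Finset ι := W.erase l with hV
    have hVc : V.card = N := by rw [hV, Finset.card_erase_of_mem hlW, hWN]; rfl
    have hVT : Tog x y V := hT'.mono (Finset.erase_subset _ _)
    have hfree : Free x y V p := hT'.free hlW hp hpl
    have hconc : Conc x y V p (2 / K) := conc_of_distinct x y hp hfree hRr hK hRc.le hRd
    have ih' : ∀ X B : Finset ℤ, X.Nonempty → B.Nonempty → bd δ R c V.card (Sz X B) ≤
        mu x y V X B := ih V hVc hVT
    have hWins : W = insert l V := by rw [hV, Finset.insert_erase hlW]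
    have hlV : l ∉ V := by rw [hV]; exact Finset.notMem_erase _ _
    obtain ⟨hxl, hyl⟩ := hT'.pos hlW
    have hcxy := (Nat.squarefree_mul_iff.1 (hT'.sf l hlW)).1
    obtain ⟨a, b, ha0, hb0, hpa, hpb, hmu⟩ : ∃ a b : ℕ, 0 < a ∧ 0 < b ∧ p ∣ a ∧ ¬ p ∣ b ∧
        mu x y W X B = (mu x y V (dil a X) B + mu x y V (dil b X) B) / 2 := by
      rcases (Nat.Prime.dvd_mul hp).1 hpl with h | h
      · refine ⟨x l, y l, hxl, hyl, h, fun h' => ?_, ?_⟩
        · exact Nat.not_coprime_of_dvd_of_dvd hp.one_lt h h' hcxy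
        · rw [hWins, mu_insert x y hlV]; ring
      · refine ⟨y l, x l, hyl, hxl, h, fun h' => ?_, ?_⟩
        · exact Nat.not_coprime_of_dvd_of_dvd hp.one_lt h' h hcxy
        · rw [hWins, mu_insert x y hlV]
    have hcb : IsCoprime (p : ℤ) (b : ℤ) := by
      rw [Nat.isCoprime_iff_coprime]
      exact (Nat.Prime.coprime_iff_not_dvd hp).2 hpb
    have hbz : (b : ℤ) ≠ 0 := by exact_mod_cast hb0.ne'
    have haz : (a : ℤ) ≠ 0 := by exact_mod_cast ha0.ne'
    set X₁ : Finset ℤ := dil b X with hX₁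
    have hX₁n : X₁.Nonempty := dil_nonempty hX
    have hX₁c : X₁.card = X.card := card_dil hbz X
    have hSz₁ : Sz X₁ B = Sz X B := by unfold Sz; rw [hX₁c]
    have cX₁ : (0 : ℝ) < X₁.card := by rw [hX₁c]; exact cX
    -- the level
    have hex : ∃ J : ℕ, mx ((p : ℤ) ^ J) X₁ * mx ((p : ℤ) ^ J) B * c.K₀ ≤ X₁.card * B.card := by
      obtain ⟨J₁, h1⟩ := mx_large hp.two_le X₁
      obtain ⟨J₂, h2⟩ := mx_large hp.two_le B
      refine ⟨max J₁ J₂, ?_⟩
      calc mx ((p : ℤ) ^ max J₁ J₂) X₁ * mx ((p : ℤ) ^ max J₁ J₂) B * c.K₀ ≤ 1 * 1 * c.K₀ :=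
            Nat.mul_le_mul_right _ (Nat.mul_le_mul (h1 _ (le_max_left _ _))
              (h2 _ (le_max_right _ _)))
        _ ≤ _ := by rw [one_mul, one_mul, hX₁c]; exact hbig
    obtain ⟨I, hI, hI'⟩ : ∃ I : ℕ,
        mx ((p : ℤ) ^ (I + 1)) X₁ * mx ((p : ℤ) ^ (I + 1)) B * c.K₀ ≤ X₁.card * B.card ∧
        X₁.card * B.card < mx ((p : ℤ) ^ I) X₁ * mx ((p : ℤ) ^ I) B * c.K₀ := by
      classical
      have h1 := Nat.find_spec hex
      have h2 : Nat.find hex ≠ 0 := by
        intro h0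
        rw [h0, pow_zero, mx_one' hX₁n, mx_one' hB] at h1
        have h3 : 0 < X₁.card * B.card := Nat.mul_pos hX₁n.card_pos hB.card_pos
        have := c.K₀2
        nlinarith
      obtain ⟨I, hIe⟩ := Nat.exists_eq_succ_of_ne_zero h2
      refine ⟨I, ?_, ?_⟩
      · rw [hIe] at h1; exact h1
      · have := Nat.find_min hex (m := I) (by rw [hIe]; exact Nat.lt_succ_self I)
        exact not_le.1 this
    -- the heavy class of `X`
    obtain ⟨x₀, hx₀, hx₀m⟩ : ∃ x₀ ∈ X, (cls ((p : ℤ) ^ I) X x₀).card =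
        mx ((p : ℤ) ^ I) X₁ := by
      obtain ⟨x₁, hx₁, hx₁m⟩ := exists_mx ((p : ℤ) ^ I) hX₁n
      obtain ⟨x₀, hx₀, rfl⟩ := Finset.mem_image.1 hx₁
      refine ⟨x₀, hx₀, ?_⟩
      rw [← hx₁m, hX₁, cls_dil' hcb.pow_left, card_dil hbz]
    have hheavy : X.card ≤ (cls ((p : ℤ) ^ I) X x₀).card * c.K₀ := by
      rw [hx₀m, ← hX₁c]
      by_contra hcon
      push Not at hcon
      have h1 := mx_le ((p : ℤ) ^ I) B
      have h2 : mx ((p : ℤ) ^ I) X₁ * mx ((p : ℤ) ^ I) B * c.K₀ ≤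
          mx ((p : ℤ) ^ I) X₁ * B.card * c.K₀ :=
        Nat.mul_le_mul_right _ (Nat.mul_le_mul_left _ h1)
      have h3 : mx ((p : ℤ) ^ I) X₁ * B.card * c.K₀ = mx ((p : ℤ) ^ I) X₁ * c.K₀ * B.card := by
        ring
      have h4 : mx ((p : ℤ) ^ I) X₁ * c.K₀ * B.card ≤ X₁.card * B.card :=
        Nat.mul_le_mul_right _ hcon.le
      omega
    -- the selections
    obtain ⟨iX, T, hT, hTn, hTi, hT1, hT2⟩ := sel ((p : ℤ) ^ (I + 1)) X₁ hX₁n
    obtain ⟨iB, U, hU, hUn, hUi, hU1, hU2⟩ := sel ((p : ℤ) ^ (I + 1)) B hB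
    obtain ⟨hTl, hTk, hTc⟩ := sel_log hX₁n hT hTn hTi hT1 hT2
    obtain ⟨hUl, hUk, hUc⟩ := sel_log hB hU hUn hUi hU1 hU2
    have hsum : c.K₀ ≤ 2 ^ (iX + iB + 2) := by
      obtain ⟨t, ht⟩ := hTn
      obtain ⟨v, hv⟩ := hUn
      have h1 := (hT1 t ht).1.trans (Nat.mul_le_mul_left _ (le_mx _ (hT ht)))
      have h2 := (hU1 v hv).1.trans (Nat.mul_le_mul_left _ (le_mx _ (hU hv)))
      have h3 : X₁.card * B.card ≤ 2 ^ (iX + iB + 2) *
          (mx ((p : ℤ) ^ (I + 1)) X₁ * mx ((p : ℤ) ^ (I + 1)) B) := by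
        calc X₁.card * B.card ≤ (2 ^ (iX + 1) * mx ((p : ℤ) ^ (I + 1)) X₁) *
              (2 ^ (iB + 1) * mx ((p : ℤ) ^ (I + 1)) B) := Nat.mul_le_mul h1 h2
          _ = _ := by ring
      have h4 : 0 < mx ((p : ℤ) ^ (I + 1)) X₁ * mx ((p : ℤ) ^ (I + 1)) B := by
        rcases Nat.eq_zero_or_pos (mx ((p : ℤ) ^ (I + 1)) X₁ * mx ((p : ℤ) ^ (I + 1)) B)
          with h | h
        · rw [h, mul_zero] at h3
          have : 0 < X₁.card * B.card := Nat.mul_pos hX₁n.card_pos hB.card_pos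
          omega
        · exact h
      have h5 : mx ((p : ℤ) ^ (I + 1)) X₁ * mx ((p : ℤ) ^ (I + 1)) B * c.K₀ ≤
          mx ((p : ℤ) ^ (I + 1)) X₁ * mx ((p : ℤ) ^ (I + 1)) B * 2 ^ (iX + iB + 2) := by
        rw [mul_comm (mx _ X₁ * mx _ B) (2 ^ _)]
        exact hI.trans h3
      exact Nat.le_of_mul_le_mul_left h5 h4
    obtain ⟨hnum, hRsum⟩ := c.hK₀ iX iB hsum
    have hδ' : 0 ≤ 1 - δ := by linarith
    have hTc' : (T.card : ℝ) ≤ 2 ^ (iX + 1) := by exact_mod_cast hTc
    have hUc' : (U.card : ℝ) ≤ 2 ^ (iB + 1) := by exact_mod_cast hUc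
    have hlX : Real.log X₁.card = Real.log X.card := by rw [hX₁c]
    rw [hlX] at hTl
    rw [hmu, hWN]
    by_cases hiB : c.MB ≤ iB
    · -- the branch with the multiple of `p`
      obtain ⟨hB1, hB2⟩ := c.hMB iB hiB
      have h0 := ih' X₁ B hX₁n hB
      rw [hSz₁, hVc] at h0
      have hcI := caseI x y V hpa X B I x₀ hx₀ U hU hUn hUi
      rw [add_comm (mu x y V (dil a X) B)]
      refine bd_comb hR c (S' := Sz X B - iB * Real.log 2) (g := Real.log U.card -
        (1 - δ) * (Real.log c.K₀ + Real.log 2)) (by linarith) ?_ h0 (le_trans ?_ hcI)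
      · have hk : 0 ≤ δ * (Real.log c.K₀ + Real.log 2) :=
          mul_nonneg hδ.le (add_nonneg (Real.log_natCast_nonneg _) hl.le)
        linarith
      · have h1 : ∀ t ∈ U, (1 - δ) * (Sz X B - Real.log c.K₀ - (iB + 1) * Real.log 2) -
            Real.log c.K₀ - (R / 2) * Real.exp ((c.j₀ : ℝ) / 2) *
            Real.exp (2 / R * (Sz X B - iB * Real.log 2) - (N : ℝ) / 2) ≤
            mu x y V (dil a (cls ((p : ℤ) ^ I) X x₀)) (cls ((p : ℤ) ^ (I + 1)) B t) := by
          intro t ht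
          obtain ⟨h2, h3⟩ := hUl t ht
          have hn1 : (cls ((p : ℤ) ^ I) X x₀).Nonempty := cls_nonempty _ hx₀
          have h4 := ih' (dil a (cls ((p : ℤ) ^ I) X x₀)) (cls ((p : ℤ) ^ (I + 1)) B t)
            (dil_nonempty hn1) (cls_nonempty _ (hU ht))
          rw [hVc] at h4
          refine le_trans ?_ h4
          have h5 : Sz (dil a (cls ((p : ℤ) ^ I) X x₀)) (cls ((p : ℤ) ^ (I + 1)) B t) =
              Real.log (cls ((p : ℤ) ^ I) X x₀).card +
                Real.log (cls ((p : ℤ) ^ (I + 1)) B t).card := by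
            unfold Sz
            rw [card_dil haz]
          have cc : (0 : ℝ) < (cls ((p : ℤ) ^ I) X x₀).card := by exact_mod_cast hn1.card_pos
          have h6 : Real.log (cls ((p : ℤ) ^ I) X x₀).card ≤ Real.log X.card :=
            Real.log_le_log cc (by exact_mod_cast Finset.card_le_card (cls_sub _ _ _))
          have h7 : Real.log X.card ≤ Real.log (cls ((p : ℤ) ^ I) X x₀).card +
              Real.log c.K₀ := by
            rw [← Real.log_mul cc.ne' hK0.ne']
            exact Real.log_le_log cX (by exact_mod_cast hheavy)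
          apply bd_mono hR c
          · apply mul_le_mul_of_nonneg_left _ hδ'
            rw [h5]
            unfold Sz
            linarith
          · rw [h5]
            unfold Sz
            linarith
        have h2 := avg_ge hUn h1
        unfold bd
        nlinarith
    push Not at hiB
    have h0a : bd δ R c N (Sz X B) ≤ mu x y V (dil a X) B := by
      have h0 := ih' (dil a X) B (dil_nonempty hX) hB
      have h0' : Sz (dil a X) B = Sz X B := by unfold Sz; rw [card_dil haz]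
      rwa [h0', hVc] at h0
    by_cases hiX : c.MX ≤ iX
    · -- the other branch, large residue entropy of `X`
      obtain ⟨hX1, hX2⟩ := c.hMX iX hiX
      obtain ⟨b₀, hb₀⟩ := hUn
      have hcI := caseIIa x y V hp hfree X₁ B (I + 1) T hT hTn hTi b₀ (hU hb₀)
      have hiB' : (iB : ℝ) + 1 ≤ c.MB := by exact_mod_cast hiB
      refine bd_comb hR c (S' := Sz X B - iX * Real.log 2) (g := Real.log T.card -
        (1 - δ) * ((c.MB + 1) * Real.log 2)) (by linarith) ?_ h0a (le_trans ?_ hcI)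
      · have hk : 0 ≤ δ * (((c.MB : ℝ) + 1) * Real.log 2) := by positivity
        linarith
      · obtain ⟨h8, h9⟩ := hUl b₀ hb₀
        have h1 : ∀ t ∈ T, (1 - δ) * (Sz X B - (iX + 1) * Real.log 2 - (iB + 1) * Real.log 2) -
            Real.log c.K₀ - (R / 2) * Real.exp ((c.j₀ : ℝ) / 2) *
            Real.exp (2 / R * (Sz X B - iX * Real.log 2) - (N : ℝ) / 2) ≤
            mu x y V (cls ((p : ℤ) ^ (I + 1)) X₁ t) (cls ((p : ℤ) ^ (I + 1)) B b₀) := by
          intro t ht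
          obtain ⟨h2, h3⟩ := hTl t ht
          have h4 := ih' (cls ((p : ℤ) ^ (I + 1)) X₁ t) (cls ((p : ℤ) ^ (I + 1)) B b₀)
            (cls_nonempty _ (hT ht)) (cls_nonempty _ (hU hb₀))
          rw [hVc] at h4
          refine le_trans ?_ h4
          have h10 : 0 ≤ iB * Real.log 2 := by positivity
          apply bd_mono hR c
          · apply mul_le_mul_of_nonneg_left _ hδ'
            unfold Sz
            linarith
          · unfold Sz
            linarith
        have h2 := avg_ge hTn h1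
        have h10 : (1 - δ) * ((iB + 1) * Real.log 2) ≤ (1 - δ) * (c.MB * Real.log 2) :=
          mul_le_mul_of_nonneg_left (mul_le_mul_of_nonneg_right hiB' hl.le) hδ'
        unfold bd
        nlinarith
    push Not at hiX
    · -- both small: generic multipliers
      have hβ : ((T.card : ℝ) * U.card) ^ 2 * (2 / K) ≤ δ / 2 := by
        have h1 : (2 : ℝ) ^ (iX + 1) ≤ 2 ^ c.MX :=
          pow_le_pow_right₀ (by norm_num) (by omega)
        have h2 : (2 : ℝ) ^ (iB + 1) ≤ 2 ^ c.MB :=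
          pow_le_pow_right₀ (by norm_num) (by omega)
        have h3 : (T.card : ℝ) * U.card ≤ 2 ^ c.MX * 2 ^ c.MB :=
          mul_le_mul (hTc'.trans h1) (hUc'.trans h2) (Nat.cast_nonneg _)
            (pow_nonneg (by norm_num) _)
        have h4 : ((T.card : ℝ) * U.card) ^ 2 ≤ (2 ^ c.MX * 2 ^ c.MB) ^ 2 :=
          pow_le_pow_left₀ (mul_nonneg (Nat.cast_nonneg _) (Nat.cast_nonneg _)) h3 2
        refine le_trans ?_ hKc
        exact mul_le_mul_of_nonneg_right h4 (div_nonneg (by norm_num) (Nat.cast_nonneg _))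
      have hcI := caseIIb x y V hp (div_nonneg (by norm_num) (Nat.cast_nonneg _)) hconc X₁ B (I + 1) T hT hTn hTi
        U hU hUn hUi (δ / 2) hβ
      refine bd_comb hR c (S' := Sz X B - (iX + iB) * Real.log 2)
        (g := (1 - δ / 2) * (Real.log T.card + Real.log U.card) - (1 - δ) * (2 * Real.log 2))
        (by linarith) ?_ h0a (le_trans ?_ hcI)
      · have hx1 : (1 - δ / 2) * (iX * Real.log 2 - psi iX + (iB * Real.log 2 - psi iB)) ≤
            (1 - δ / 2) * (Real.log T.card + Real.log U.card) :=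
          mul_le_mul_of_nonneg_left (by linarith) (by linarith)
        have hps1 : 0 ≤ psi iX := Real.log_nonneg (by nlinarith [(Nat.cast_nonneg iX : (0:ℝ) ≤ iX)])
        have hps2 : 0 ≤ psi iB := Real.log_nonneg (by nlinarith [(Nat.cast_nonneg iB : (0:ℝ) ≤ iB)])
        nlinarith
      · have h1 : ∀ t ∈ T, (1 - δ) * (Sz X B - (iX + iB + 2) * Real.log 2) -
            Real.log c.K₀ - (R / 2) * Real.exp ((c.j₀ : ℝ) / 2) *
            Real.exp (2 / R * (Sz X B - (iX + iB) * Real.log 2) - (N : ℝ) / 2) ≤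
            (∑ v ∈ U, mu x y V (cls ((p : ℤ) ^ (I + 1)) X₁ t) (cls ((p : ℤ) ^ (I + 1)) B v)) /
              U.card := by
          intro t ht
          obtain ⟨h2, h3⟩ := hTl t ht
          apply avg_ge hUn
          intro v hv
          obtain ⟨h8, h9⟩ := hUl v hv
          have h4 := ih' (cls ((p : ℤ) ^ (I + 1)) X₁ t) (cls ((p : ℤ) ^ (I + 1)) B v)
            (cls_nonempty _ (hT ht)) (cls_nonempty _ (hU hv))
          rw [hVc] at h4
          refine le_trans ?_ h4
          apply bd_mono hR c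
          · apply mul_le_mul_of_nonneg_left _ hδ'
            unfold Sz
            linarith
          · unfold Sz
            linarith
        have h2 := avg_ge hTn h1
        have h3 : (∑ t ∈ T, (∑ v ∈ U, mu x y V (cls ((p : ℤ) ^ (I + 1)) X₁ t)
            (cls ((p : ℤ) ^ (I + 1)) B v)) / U.card) / T.card =
            (∑ t ∈ T, ∑ v ∈ U, mu x y V (cls ((p : ℤ) ^ (I + 1)) X₁ t)
              (cls ((p : ℤ) ^ (I + 1)) B v)) / (T.card * U.card) := by
          rw [← Finset.sum_div, div_div, mul_comm (U.card : ℝ)]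
        rw [h3] at h2
        unfold bd
        nlinarith

/-- **Dilates by products of coprime ratios.** Some multiplier `d = ∏_{i ∈ S} x_i ∏_{i ∉ S} y_i`
has `|d X + B|` almost as large as `|X| |B|`, as soon as there are at least
`θ log (|X| |B|)` toggles. -/
theorem dilates (δ θ : ℝ) (hδ : 0 < δ) (hθ : 0 < θ) :
    ∃ C : ℝ, ∀ {ι : Type} (x y : ι → ℕ) (W : Finset ι), Tog x y W →
      ∀ X B : Finset ℤ, X.Nonempty → B.Nonempty →
      θ * (Real.log X.card + Real.log B.card) ≤ W.card →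
      ∃ s ⊆ W, (1 - δ) * (Real.log X.card + Real.log B.card) - C ≤
        Real.log ((dil (dm x y W s) X + B).card : ℝ) := by
  obtain ⟨c, K, hK, hKj, hKc⟩ := exists_cst' (min δ (1 / 2)) (4 / θ) (by positivity)
  refine ⟨Real.log c.K₀ + (4 / θ / 2) * Real.exp ((c.j₀ : ℝ) / 2), ?_⟩
  intro ι x y W hW X B hX hB hS
  have hδ1 : min δ (1 / 2) < 1 := lt_of_le_of_lt (min_le_right _ _) (by norm_num)
  have hδ0 : 0 < min δ (1 / 2) := lt_min hδ (by norm_num)
  have hθ4 : 0 < 4 / θ := div_pos (by norm_num) hθ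
  have h := mu_ge x y hδ0 hδ1 hθ4 c hK hKj hKc W.card W rfl hW X B hX hB
  by_contra hcon
  push Not at hcon
  have hS0 : 0 ≤ Sz X B := Sz_nonneg X B
  have h1 : (1 - δ) * (Real.log X.card + Real.log B.card) -
      (Real.log c.K₀ + (4 / θ / 2) * Real.exp ((c.j₀ : ℝ) / 2)) ≤
      bd (min δ (1 / 2)) (4 / θ) c W.card (Sz X B) := by
    unfold bd
    have h2 : Real.exp (2 / (4 / θ) * Sz X B - (W.card : ℝ) / 2) ≤ 1 := by
      rw [Real.exp_le_one_iff]
      have h3 : 2 / (4 / θ) * Sz X B = θ * (Real.log X.card + Real.log B.card) / 2 := by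
        unfold Sz
        field_simp; ring
      rw [h3]
      linarith
    have h4 : (4 / θ / 2) * Real.exp ((c.j₀ : ℝ) / 2) *
        Real.exp (2 / (4 / θ) * Sz X B - (W.card : ℝ) / 2) ≤
        (4 / θ / 2) * Real.exp ((c.j₀ : ℝ) / 2) * 1 :=
      mul_le_mul_of_nonneg_left h2 (by positivity)
    have h5 : (1 - δ) * Sz X B ≤ (1 - min δ (1 / 2)) * Sz X B :=
      mul_le_mul_of_nonneg_right (by have := min_le_left δ (1 / 2); linarith) hS0
    have h6 : Sz X B = Real.log X.card + Real.log B.card := rfl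
    rw [← h6]
    linarith
  have h7 : mu x y W X B < (1 - δ) * (Real.log X.card + Real.log B.card) -
      (Real.log c.K₀ + (4 / θ / 2) * Real.exp ((c.j₀ : ℝ) / 2)) := by
    unfold mu
    rw [div_lt_iff₀ (by positivity)]
    have h8 : ∑ s ∈ W.powerset, Real.log ((dil (dm x y W s) X + B).card : ℝ) <
        ∑ s ∈ W.powerset, ((1 - δ) * (Real.log X.card + Real.log B.card) -
          (Real.log c.K₀ + (4 / θ / 2) * Real.exp ((c.j₀ : ℝ) / 2))) :=
      Finset.sum_lt_sum_of_nonempty ⟨∅, by simp⟩ fun s hs => hcon s (Finset.mem_powerset.1 hs)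
    rw [Finset.sum_const, Finset.card_powerset, nsmul_eq_mul] at h8
    push_cast at h8
    linarith
  linarith

end Pool.Agent.T2h42.GD
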